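import Pool.Agent.H207.TF.Stm2

/-!
# Project TF, PFX: partial fractions and deformations
-/

set_option autoImplicit false

open Polynomial

namespace Pool.Agent.H788.TF207

open Pool.Agent.H792R2.CE Pool.Agent.H207.TF

/-- the multiplicity of a critical point -/
theorem pow_dvd {P Q : ℂ[X]} (hN : wr P Q ≠ 0) {c y : ℂ} (hQ : Q.eval c ≠ 0)
    (hy : (P - C y * Q).eval c = 0) :
    (X - C c) ^ ((wr P Q).rootMultiplicity c + 1) ∣ P - C y * Q := by
  set h : ℂ[X] := P - C y * Q with hh
  have hw : wr P Q = derivative h * Q - h * derivative Q := by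
    rw [hh]
    unfold wr
    rw [derivative_sub, derivative_mul, derivative_C]
    ring
  have h0 : h ≠ 0 := by
    intro h1
    apply hN
    rw [hw, h1]
    simp
  obtain ⟨g, hg, hgc⟩ := exists_eq_pow_rootMultiplicity_mul_and_not_dvd h h0 c
  have hpos : 0 < rootMultiplicity c h := (rootMultiplicity_pos h0).2 hy
  obtain ⟨m, hm⟩ : ∃ m, rootMultiplicity c h = m + 1 := ⟨rootMultiplicity c h - 1, by omega⟩
  rw [hm] at hg
  have hg0 : g.eval c ≠ 0 := fun h1 => hgc (dvd_iff_isRoot.2 h1)
  have hw2 : wr P Q = (X - C c) ^ m * (C ((m : ℂ) + 1) * (g * Q) +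
      (X - C c) * (derivative g * Q - g * derivative Q)) := by
    rw [hw, hg, derivative_mul, derivative_pow, derivative_sub, derivative_X, derivative_C,
      Nat.add_sub_cancel]
    push_cast
    rw [map_add, map_natCast, map_one]
    ring
  have hk : (wr P Q).rootMultiplicity c ≤ m := by
    by_contra hlt
    have h1 : (X - C c) ^ (m + 1) ∣ wr P Q :=
      (pow_dvd_pow _ (by omega)).trans (pow_rootMultiplicity_dvd (wr P Q) c)
    rw [hw2, pow_succ] at h1
    have h2 := (mul_dvd_mul_iff_left (pow_ne_zero m (X_sub_C_ne_zero c))).1 h1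
    have h3 := dvd_iff_isRoot.1 h2
    have h4 : ((m : ℂ) + 1) * (g.eval c * Q.eval c) = 0 := by
      have h5 := h3.eq_zero
      simpa using h5
    have h5 : ((m : ℂ) + 1) ≠ 0 := by exact_mod_cast Nat.succ_ne_zero m
    exact (mul_ne_zero h5 (mul_ne_zero hg0 hQ)) h4
  rw [hg]
  exact (pow_dvd_pow _ (by omega)).mul_right g

/-- **PFX.** -/
theorem t_PFX : Pool.Agent.H207.TF.S_PFX := by
  intro P Q d hP hQ hN hNQ x hd hD0 hw
  obtain ⟨S, hS, hSz⟩ := D1_pf hP hQ hd hD0 hw
  have hmem : ∀ w ∈ (P - C x * Q).roots.toFinset, (P - C x * Q).eval w = 0 := by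
    intro w hw
    rw [Multiset.mem_toFinset, mem_roots hD0] at hw
    exact hw
  refine ⟨S, hS, ?_, ?_⟩
  · -- the polynomial identity
    have hdiv : ∀ z, (P - C x * Q).eval z ≠ 0 → ∀ w ∈ (P - C x * Q).roots.toFinset,
        ((P - C x * Q) /ₘ (X - C w)).eval z = (P - C x * Q).eval z / (z - w) := by
      intro z hz w hw
      have h3 : (X - C w) * ((P - C x * Q) /ₘ (X - C w)) = P - C x * Q :=
        mul_divByMonic_eq_iff_isRoot.2 (hmem w hw)
      have h4 := congrArg (eval z) h3
      rw [eval_mul, eval_sub (p := X), eval_X, eval_C] at h4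
      have h5 : z - w ≠ 0 := by
        intro h0
        rw [h0, zero_mul] at h4
        exact hz h4.symm
      rw [eq_div_iff h5, ← h4, mul_comm]
    set b : ℂ → ℂ := fun w => Q.eval w ^ 4 / (wr P Q).eval w ^ 2 with hb
    set A : ℂ[X] := ∑ w ∈ (P - C x * Q).roots.toFinset, C (b w) *
      ((P - C x * Q) /ₘ (X - C w)) with hA
    have hAz : ∀ z, (P - C x * Q).eval z ≠ 0 → A.eval z =
        (P - C x * Q).eval z * ∑ w ∈ (P - C x * Q).roots.toFinset, b w / (z - w) := by
      intro z hz
      rw [hA, eval_finsetSum, Finset.mul_sum]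
      refine Finset.sum_congr rfl fun w hw => ?_
      rw [eval_mul, eval_C, hdiv z hz w hw]
      ring
    have hid : Q ^ 3 = (P - C x * Q) * S + wr P Q * A := by
      apply eq_of_infinite_eval_eq
      refine Set.Infinite.mono ?_ ((P - C x * Q).roots.toFinset.finite_toSet.infinite_compl)
      intro z hz
      have hz0 : (P - C x * Q).eval z ≠ 0 := by
        intro h0
        apply hz
        rw [Finset.mem_coe, Multiset.mem_toFinset, mem_roots hD0]
        exact h0
      have h1 := hSz z hz0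
      rw [div_eq_iff hz0] at h1
      show (Q ^ 3).eval z = ((P - C x * Q) * S + wr P Q * A).eval z
      rw [eval_pow, h1, eval_add, eval_mul, eval_mul, hAz z hz0]
      ring
    intro c hc
    have hQc := hNQ c hc
    have hDc : (P - C x * Q).eval c ≠ 0 := fun h => hw c h hc
    set k := (wr P Q).rootMultiplicity c with hk
    have hy : (P - C (rf P Q c) * Q).eval c = 0 := by
      rw [eval_sub, eval_mul, eval_C]
      unfold rf
      rw [div_mul_cancel₀ _ hQc, sub_self]
    have h1 : (X - C c) ^ (k + 1) ∣ P - C (rf P Q c) * Q := pow_dvd hN hQc hy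
    have hyx : rf P Q c - x ≠ 0 := by
      intro h2
      apply hDc
      rw [← sub_eq_zero.1 h2]
      exact hy
    set κ : ℂ := ∑ w ∈ (P - C x * Q).roots.toFinset, b w / (c - w) with hκ
    have h2 : (X - C c) ^ (k + 1) ∣ wr P Q * (C κ * (P - C x * Q) - A) := by
      rw [pow_succ]
      refine mul_dvd_mul (pow_rootMultiplicity_dvd _ _) (dvd_iff_isRoot.2 ?_)
      show (C κ * (P - C x * Q) - A).eval c = 0
      rw [eval_sub, eval_mul, eval_C, hAz c hDc]
      ring
    have h3 : (P - C x * Q) * (S - C (1 / (rf P Q c - x)) * Q ^ 2 + C κ * wr P Q) =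
        -(Q ^ 2 * C (1 / (rf P Q c - x)) * (P - C (rf P Q c) * Q)) +
          wr P Q * (C κ * (P - C x * Q) - A) := by
      have h4 : C (1 / (rf P Q c - x)) * (C (rf P Q c) - C x) = 1 := by
        rw [← C_sub, ← C_mul, one_div, inv_mul_cancel₀ hyx, C_1]
      linear_combination (-1 : ℂ[X]) * hid - Q ^ 3 * h4
    have hcop : IsCoprime ((X - C c) ^ (k + 1)) (P - C x * Q) := by
      apply IsCoprime.pow_left
      rw [(irreducible_X_sub_C c).coprime_iff_not_dvd]
      intro h4
      exact hDc (dvd_iff_isRoot.1 h4)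
    refine hcop.dvd_of_dvd_mul_left ?_
    show (X - C c) ^ (k + 1) ∣ (P - C x * Q) *
      (S - C (1 / (rf P Q c - x)) * Q ^ 2 + C κ * wr P Q)
    rw [h3]
    exact dvd_add ((h1.mul_left _).neg_right) h2
  · intro z hz hQz
    have h1 := hSz z hz
    have h2 : S.eval z = Q.eval z ^ 3 / (P - C x * Q).eval z - (wr P Q).eval z *
        ∑ w ∈ (P - C x * Q).roots.toFinset, Q.eval w ^ 4 / (wr P Q).eval w ^ 2 / (z - w) := by
      rw [h1]
      ring
    have h3 : rf P Q z - x = (P - C x * Q).eval z / Q.eval z := by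
      unfold rf
      rw [eval_sub, eval_mul, eval_C]
      field_simp
    rw [h2, h3]
    generalize (∑ w ∈ (P - C x * Q).roots.toFinset,
      Q.eval w ^ 4 / (wr P Q).eval w ^ 2 / (z - w)) = T0
    generalize (P - C x * Q).eval z = Dz at hz
    field_simp

end Pool.Agent.H788.TF207
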